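import Pool.Agent.Run7.h92.JG.VAN

namespace Pool.Agent.Run7.h92.JG

open Complex MatrixGroups ModularGroup
open UpperHalfPlane hiding I

theorem ip_comm {n : ℕ} (x y : Fin n → ℝ) : ip x y = ip y x := by
  unfold ip
  exact Finset.sum_congr rfl fun i _ => mul_comm _ _

theorem ip_add_right {n : ℕ} (x y z : Fin n → ℝ) : ip x (y + z) = ip x y + ip x z := by
  unfold ip
  rw [← Finset.sum_add_distrib]
  exact Finset.sum_congr rfl fun i _ => by rw [Pi.add_apply]; ring

theorem ip_add_left {n : ℕ} (x y z : Fin n → ℝ) : ip (x + y) z = ip x z + ip y z := by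
  rw [ip_comm, ip_add_right, ip_comm z x, ip_comm z y]

/-- polarisation -/
theorem ip_int {n : ℕ} {M : AddSubgroup (Fin n → ℝ)} (h : ∀ x ∈ M, ∃ m : ℤ, ip x x = 2 * m)
    {x y : Fin n → ℝ} (hx : x ∈ M) (hy : y ∈ M) : ∃ m : ℤ, ip x y = m := by
  obtain ⟨a, ha⟩ := h x hx
  obtain ⟨b, hb⟩ := h y hy
  obtain ⟨c, hc⟩ := h (x + y) (M.add_mem hx hy)
  refine ⟨c - a - b, ?_⟩
  rw [ip_add_left, ip_add_right, ip_add_right, ip_comm y x] at hc
  push_cast
  linarith

theorem t_MAIN (hVAN : S_VAN) (hSETUP : S_SETUP) (hIRR : S_IRR) (hSPAN : S_SPAN) (hTHS : S_THS)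
    (hTHH : S_THH) (hTHP : S_THP) (hTSUM : S_TSUM) (hGEN : S_GEN) (hNZ : S_NZ) : S_MAIN := by
  intro N
  obtain ⟨j, hj1, hjN⟩ : ∃ j : ℕ, 1 ≤ j ∧ N ≤ 4 * (j : ℤ) - 12 := by
    refine ⟨N.toNat + 13, by omega, ?_⟩
    have := Int.self_le_toNat N
    push_cast
    omega
  have hset := hSETUP j hj1
  set n := 8 * j with hn
  set M := Mlat n with hM
  set L := Llat n with hL
  set r := rr n with hr
  have hsum : ∀ (τ : ℍ) z, Summable (tt M τ z) := fun τ z => hTSUM n τ z τ.im_pos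
  obtain ⟨hT, hP, hF⟩ := hTHP n M hset.even
  have hS := hTHS j hj1
  have hdualM : ∀ l ∈ M, l ∈ dual L := fun l hl x hx => ip_int hset.even (hset.le hx) hl
  have hth : IsWeakJacobi L ((4 * j : ℕ) : ℤ) (th M) := by
    refine ⟨hTHH n (by omega) ⟨4 * j, by omega⟩, hGEN n _ (th M) hT hS, ?_, ?_⟩
    · intro x hx y hy τ z
      rw [hP x (hset.le hx) y (hset.le hy) τ z]
      unfold e
      congr 2
      ring
    · obtain ⟨f, hf1, hf2⟩ := hF hsum
      exact ⟨f, fun m l hl => hf1 m l fun hl' => hl (hdualM l hl'), hf2⟩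
  have hnz : ∀ τ : ℍ, ∃ z, th M τ z ≠ 0 := fun τ => hNZ n M τ (hsum τ)
  refine ⟨n, L, ⟨hSPAN n, fun x hx => hset.even x (hset.le hx)⟩, hIRR j hj1, ?_, ?_⟩
  · intro hU
    apply hset.r_not
    have h1 : r ∈ dual L := hdualM r hset.r_mem
    have h2 : dual L = (L : Set (Fin n → ℝ)) := hU
    rw [h2] at h1
    exact h1
  · intro ι k φ hφ hgen
    by_contra hcon
    push Not at hcon
    obtain ⟨s, f, hf⟩ := hgen _ _ hth
    have hvan : ∀ i (τ : ℍ) z, TT r (φ i τ) τ z = 0 := fun i =>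
      hVAN n L M r ((4 * j : ℕ) : ℤ) (k i) (φ i) hset hT hS hnz (hφ i) (by
        have := hcon i
        push_cast
        omega)
    -- the trace of theta
    have htrth : ∀ (τ : ℍ) z, TT r (th M τ) τ z = 4 * th M τ z := by
      intro τ z
      have key : ∀ x ∈ M, ∀ y ∈ M, tr (th M τ) τ x y z = th M τ z := by
        intro x hx y hy
        unfold tr
        rw [hP x hx y hy τ z, ← mul_assoc, ← e_add]
        have : (((ip x x : ℝ) : ℂ) * τ / 2 + pr x z + (-((ip x x : ℝ) * τ / 2) - pr x z)) = 0 := by ring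
        rw [this, e_zero, one_mul]
      unfold TT
      rw [key 0 M.zero_mem 0 M.zero_mem, key 0 M.zero_mem r hset.r_mem, key r hset.r_mem 0 M.zero_mem,
        key r hset.r_mem r hset.r_mem]
      ring
    have hlin : ∀ (τ : ℍ) z, TT r (th M τ) τ z = ∑ i ∈ s, f i τ * TT r (φ i τ) τ z := by
      intro τ z
      have h1 : ∀ x y, tr (th M τ) τ x y z = ∑ i ∈ s, f i τ * tr (φ i τ) τ x y z := by
        intro x y
        unfold tr
        rw [hf, Finset.mul_sum]
        exact Finset.sum_congr rfl fun i _ => by ring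
      unfold TT
      rw [h1, h1, h1, h1, ← Finset.sum_add_distrib, ← Finset.sum_add_distrib, ← Finset.sum_add_distrib]
      exact Finset.sum_congr rfl fun i _ => by ring
    have hI : ∀ (τ : ℍ) z, th M τ z = 0 := by
      intro τ z
      have h1 := hlin τ z
      rw [htrth, Finset.sum_eq_zero fun i _ => by rw [hvan, mul_zero]] at h1
      have h4 : (4 : ℂ) ≠ 0 := by norm_num
      exact (mul_eq_zero.1 h1).resolve_left h4
    obtain ⟨z, hz⟩ := hnz UpperHalfPlane.I
    exact hz (hI _ z)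

end Pool.Agent.Run7.h92.JG
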