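import Mathlib

set_option autoImplicit false

/-!
# Weak Jacobi forms of index one for index two sublattices of `D_{8j}^+`: interface

Disproof of the conjecture of `MP_c5c797_nt`.  `M = D_n^+` (`n = 8 j`), an even unimodular lattice,
`L = {v ∈ M : v_0 + v_1 + v_2 + v_3 even}`, `r = e_0 + e_4 ∈ M \ L`, `(r, r) = 2`.  For a weak Jacobi form
`φ` of weight `k` and index one for `L` the trace `TT φ = ∑_{x, y ∈ {0, r}} φ | [x, y]` is `2 F θ_M`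
with `F` of weight `k - n / 2` for `SL(2, ℤ)` and a pole of order at most `1` at `i ∞`; so `Δ F` is a modular
form of weight `k - n / 2 + 12` and `F = 0` if `k < n / 2 - 12`.  But `TT θ_M = 4 θ_M ≠ 0`, and `θ_M` is a weak
Jacobi form of weight `n / 2` for `L`.  So every generating set has an element of weight `≥ n / 2 - 12`.
-/

namespace Pool.Agent.Run7.h92.JG

open Complex MatrixGroups ModularGroup
open UpperHalfPlane hiding I

noncomputable section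

/-- `exp (2 π i w)` -/
def e (w : ℂ) : ℂ := cexp (2 * Real.pi * I * w)

/-- the standard bilinear form on `ℝ^n` -/
def ip {n : ℕ} (x y : Fin n → ℝ) : ℝ := ∑ i, x i * y i

/-- `(x, z)` for `x ∈ ℝ^n`, `z ∈ ℂ^n` -/
def pr {n : ℕ} (x : Fin n → ℝ) (z : Fin n → ℂ) : ℂ := ∑ i, (x i : ℂ) * z i

/-- `(z, z)` for `z ∈ ℂ^n` -/
def qd {n : ℕ} (z : Fin n → ℂ) : ℂ := ∑ i, z i ^ 2

/-- `z + x τ + y` -/
def sh {n : ℕ} (τ : ℂ) (z : Fin n → ℂ) (x y : Fin n → ℝ) : Fin n → ℂ :=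
  fun i => z i + (x i : ℂ) * τ + (y i : ℂ)

/-- the dual lattice -/
def dual {n : ℕ} (L : AddSubgroup (Fin n → ℝ)) : Set (Fin n → ℝ) :=
  {y | ∀ x ∈ L, ∃ m : ℤ, ip x y = m}

/-- Weak Jacobi forms of weight `k` and index one for `L`. -/
structure IsWeakJacobi {n : ℕ} (L : AddSubgroup (Fin n → ℝ)) (k : ℤ)
    (φ : ℍ → (Fin n → ℂ) → ℂ) : Prop where
  holo : DifferentiableOn ℂ (fun p : ℂ × (Fin n → ℂ) => φ (ofComplex p.1) p.2) {p | 0 < p.1.im}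
  modular : ∀ (γ : SL(2, ℤ)) (τ : ℍ) (z : Fin n → ℂ),
    φ (γ • τ) (fun i => z i / ((γ 1 0 : ℂ) * τ + (γ 1 1 : ℂ))) =
      ((γ 1 0 : ℂ) * τ + (γ 1 1 : ℂ)) ^ k *
        cexp (Real.pi * I * (γ 1 0 : ℂ) * qd z / ((γ 1 0 : ℂ) * τ + (γ 1 1 : ℂ))) * φ τ z
  periodic : ∀ x ∈ L, ∀ y ∈ L, ∀ (τ : ℍ) (z : Fin n → ℂ),
    φ τ (sh τ z x y) = cexp (-Real.pi * I * (ip x x : ℝ) * τ - 2 * Real.pi * I * pr x z) * φ τ z
  fourier : ∃ f : ℕ → (Fin n → ℝ) → ℂ, (∀ m, ∀ l ∉ dual L, f m l = 0) ∧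
    ∀ (τ : ℍ) (z : Fin n → ℂ),
      HasSum (fun p : ℕ × (Fin n → ℝ) => f p.1 p.2 * cexp (2 * Real.pi * I * (p.1 * τ + pr p.2 z)))
        (φ τ z)

/-- Even positive definite lattices of rank `n` (in `ℝ^n` with the standard form). -/
structure IsEvenLattice {n : ℕ} (L : AddSubgroup (Fin n → ℝ)) : Prop where
  span : Submodule.span ℝ (L : Set (Fin n → ℝ)) = ⊤
  even : ∀ x ∈ L, ∃ m : ℤ, ip x x = 2 * m

/-- `L` is not the orthogonal direct sum of two nonzero sublattices. -/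
def IsIrreducible {n : ℕ} (L : AddSubgroup (Fin n → ℝ)) : Prop :=
  ¬ ∃ A B : AddSubgroup (Fin n → ℝ), A ≠ ⊥ ∧ B ≠ ⊥ ∧ (∀ a ∈ A, ∀ b ∈ B, ip a b = 0) ∧ A ⊔ B = L

/-- `L' = L` -/
def IsUnimodular {n : ℕ} (L : AddSubgroup (Fin n → ℝ)) : Prop := dual L = (L : Set (Fin n → ℝ))

/-- The forms `φ i` generate the module of weak Jacobi forms over the ring of modular forms. -/
def Generates {n : ℕ} (L : AddSubgroup (Fin n → ℝ)) {ι : Type} (k : ι → ℤ)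
    (φ : ι → ℍ → (Fin n → ℂ) → ℂ) : Prop :=
  ∀ (w : ℤ) (ψ : ℍ → (Fin n → ℂ) → ℂ), IsWeakJacobi L w ψ →
    ∃ (s : Finset ι) (f : ∀ i, ModularForm 𝒮ℒ (w - k i)), ∀ τ z, ψ τ z = ∑ i ∈ s, f i τ * φ i τ z

/-- `D_n^+` -/
def Mlat (n : ℕ) : AddSubgroup (Fin n → ℝ) where
  carrier := {v | ((∀ i, ∃ a : ℤ, v i = a) ∨ (∀ i, ∃ a : ℤ, v i = a + 1 / 2)) ∧ ∃ m : ℤ, ∑ i, v i = 2 * m}
  zero_mem' := ⟨Or.inl fun i => ⟨0, by simp⟩, 0, by simp⟩
  add_mem' := by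
    rintro v w ⟨hv, m, hm⟩ ⟨hw, m', hm'⟩
    refine ⟨?_, m + m', by simp only [Pi.add_apply, Finset.sum_add_distrib, hm, hm']; push_cast; ring⟩
    rcases hv with hv | hv <;> rcases hw with hw | hw
    · refine Or.inl fun i => ?_
      obtain ⟨a, ha⟩ := hv i
      obtain ⟨b, hb⟩ := hw i
      exact ⟨a + b, by rw [Pi.add_apply, ha, hb]; push_cast; ring⟩
    · refine Or.inr fun i => ?_
      obtain ⟨a, ha⟩ := hv i
      obtain ⟨b, hb⟩ := hw i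
      exact ⟨a + b, by rw [Pi.add_apply, ha, hb]; push_cast; ring⟩
    · refine Or.inr fun i => ?_
      obtain ⟨a, ha⟩ := hv i
      obtain ⟨b, hb⟩ := hw i
      exact ⟨a + b, by rw [Pi.add_apply, ha, hb]; push_cast; ring⟩
    · refine Or.inl fun i => ?_
      obtain ⟨a, ha⟩ := hv i
      obtain ⟨b, hb⟩ := hw i
      exact ⟨a + b + 1, by rw [Pi.add_apply, ha, hb]; push_cast; ring⟩
  neg_mem' := by
    rintro v ⟨hv, m, hm⟩
    refine ⟨?_, -m, by simp only [Pi.neg_apply, Finset.sum_neg_distrib, hm]; push_cast; ring⟩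
    rcases hv with hv | hv
    · refine Or.inl fun i => ?_
      obtain ⟨a, ha⟩ := hv i
      exact ⟨-a, by rw [Pi.neg_apply, ha]; push_cast; ring⟩
    · refine Or.inr fun i => ?_
      obtain ⟨a, ha⟩ := hv i
      exact ⟨-a - 1, by rw [Pi.neg_apply, ha]; push_cast; ring⟩

/-- `v_0 + v_1 + v_2 + v_3` -/
def t4 {n : ℕ} (v : Fin n → ℝ) : ℝ := ∑ i, if i.val < 4 then v i else 0

/-- the index two sublattice -/
def Llat (n : ℕ) : AddSubgroup (Fin n → ℝ) where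
  carrier := {v | v ∈ Mlat n ∧ ∃ m : ℤ, t4 v = 2 * m}
  zero_mem' := ⟨(Mlat n).zero_mem, 0, by simp [t4]⟩
  add_mem' := by
    rintro v w ⟨hv, m, hm⟩ ⟨hw, m', hm'⟩
    refine ⟨(Mlat n).add_mem hv hw, m + m', ?_⟩
    have : t4 (v + w) = t4 v + t4 w := by
      unfold t4
      rw [← Finset.sum_add_distrib]
      refine Finset.sum_congr rfl fun i _ => ?_
      by_cases h : i.val < 4 <;> simp [h]
    rw [this, hm, hm']
    push_cast
    ring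
  neg_mem' := by
    rintro v ⟨hv, m, hm⟩
    refine ⟨(Mlat n).neg_mem hv, -m, ?_⟩
    have : t4 (-v) = -t4 v := by
      unfold t4
      rw [← Finset.sum_neg_distrib]
      refine Finset.sum_congr rfl fun i _ => ?_
      by_cases h : i.val < 4 <;> simp [h]
    rw [this, hm]
    push_cast
    ring

/-- `r = e_0 + e_4` -/
def rr (n : ℕ) : Fin n → ℝ := fun i => if i.val = 0 ∨ i.val = 4 then 1 else 0

/-- What is used of `L`, `M` and `r` in the analytic part. -/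
structure Setup {n : ℕ} (L M : AddSubgroup (Fin n → ℝ)) (r : Fin n → ℝ) : Prop where
  even : ∀ x ∈ M, ∃ m : ℤ, ip x x = 2 * m
  self : ∀ y, (∀ x ∈ M, ∃ m : ℤ, ip x y = m) → y ∈ M
  le : L ≤ M
  r_mem : r ∈ M
  r_not : r ∉ L
  r_norm : ip r r = 2
  r_two : r + r ∈ L
  coset : ∀ x ∈ M, x ∈ L ∨ x - r ∈ L

/-- `ψ | [x, y]` for fixed `τ` -/
def tr {n : ℕ} (ψ : (Fin n → ℂ) → ℂ) (τ : ℂ) (x y : Fin n → ℝ) (z : Fin n → ℂ) : ℂ :=
  e ((ip x x : ℝ) * τ / 2 + pr x z) * ψ (sh τ z x y)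

/-- the trace -/
def TT {n : ℕ} (r : Fin n → ℝ) (ψ : (Fin n → ℂ) → ℂ) (τ : ℂ) (z : Fin n → ℂ) : ℂ :=
  tr ψ τ 0 0 z + tr ψ τ 0 r z + tr ψ τ r 0 z + tr ψ τ r r z

/-- the terms of the theta series; the sum is over all of `ℝ^n`, the terms outside `M` are zero -/
def tt {n : ℕ} (M : AddSubgroup (Fin n → ℝ)) (τ : ℂ) (z : Fin n → ℂ) (v : Fin n → ℝ) : ℂ :=
  Set.indicator (M : Set (Fin n → ℝ)) (fun v => e ((ip v v : ℝ) * τ / 2 + pr v z)) v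

/-- the theta function of `M` -/
def th {n : ℕ} (M : AddSubgroup (Fin n → ℝ)) (τ : ℍ) (z : Fin n → ℂ) : ℂ := ∑' v, tt M τ z v

/-- theta functions in one variable with characteristic `(a/2, b/2)` -/
def vt (a b : ℕ) (τ z : ℂ) : ℂ :=
  ∑' m : ℤ, e (((m : ℂ) + a / 2) ^ 2 * τ / 2 + ((m : ℂ) + a / 2) * (z + b / 2))

/-! ## Pieces -/

/-- `UNIQ` (90 lines). Uniqueness of absolutely convergent trigonometric series on `ℝ^n`.  (`Summable` over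
`Fin n → ℝ` in `ℂ` is absolute summability; the support is countable.)  Fix `l₀`; multiply by `e (-(l₀, u))`.  Take the
mean over `u = η a`, `a ∈ {0, …, N-1}^n`: for each `l ≠ l₀` the mean of `e ((l - l₀, η a))` is a product of `n`
geometric means, of modulus `≤ 1`, and one factor tends to `0` if `η (l - l₀)_i ∉ ℤ` for some `i`; choose `η` outside the countable
set of all `k / (l - l₀)_i` (`l` in the support), and use `tendsto_tsum_of_dominated_convergence`.  Or integrate over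
`[0, T]^n` and let `T → ∞`. -/
def S_UNIQ : Prop :=
  ∀ (n : ℕ) (c : (Fin n → ℝ) → ℂ), Summable c →
    (∀ u : Fin n → ℝ, ∑' l, c l * e (ip l u : ℝ) = 0) → ∀ l, c l = 0

/-- `COEF` (60 lines). From the Fourier expansion: `c l τ = ∑ m, f m l e (m τ)` (`HasSum.prod_fiberwise`,
summability of a family in `ℂ` restricted to `{(m, l) : m ∈ ℕ}` at `z = 0`). -/
def S_COEF : Prop :=
  ∀ (n : ℕ) (L : AddSubgroup (Fin n → ℝ)) (k : ℤ) (φ : ℍ → (Fin n → ℂ) → ℂ), IsWeakJacobi L k φ →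
    ∃ (c : (Fin n → ℝ) → ℍ → ℂ) (a : (Fin n → ℝ) → ℕ → ℂ),
      (∀ l, l ∉ dual L → ∀ τ, c l τ = 0) ∧
      (∀ τ z, HasSum (fun l => c l τ * e (pr l z)) (φ τ z)) ∧
      (∀ l (τ : ℍ), HasSum (fun m : ℕ => a l m * e (m * τ)) (c l τ))

/-- `QP` (60 lines, uses UNIQ). Quasi-periodicity in terms of the coefficients:
`ψ (z + x τ) = ∑ c l e ((l, x) τ) e ((l, z))` and `e (-(x,x) τ/2 - (x,z)) ψ z = ∑ c (l + x) e (-(x,x) τ/2) e ((l, z))`
(reindexing by `Equiv.addRight x`); compare the coefficients for `z = u` real. -/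
def S_QP : Prop :=
  ∀ (n : ℕ) (c : (Fin n → ℝ) → ℂ) (ψ : (Fin n → ℂ) → ℂ) (τ : ℂ) (x : Fin n → ℝ),
    (∀ z, HasSum (fun l => c l * e (pr l z)) (ψ z)) →
    (∀ z, ψ (sh τ z x 0) = e (-((ip x x : ℝ) * τ / 2) - pr x z) * ψ z) →
    ∀ l, c (l + x) = e ((((ip x x : ℝ) : ℂ) / 2 + (ip l x : ℝ)) * τ) * c l

/-- `TRACE` (120 lines). `1 + e ((l, r))` is `2` if `l ∈ M` and `0` if `l ∈ L' \ M` (`2 (l, r) ∈ ℤ` for `l ∈ L'`; if
`(l, r) ∈ ℤ` then `(l, x) ∈ ℤ` for all `x ∈ M` by `coset`, so `l ∈ M` by `self`).  So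
`tr 0 0 + tr 0 r = 2 ∑_{l ∈ M} c l e ((l, z))` and
`tr r 0 + tr r r = 2 ∑_{l ∈ M} c l e (τ + (l, r) τ) e ((l + r, z)) = 2 ∑_{m ∈ M} c (m - r) e ((m, r) τ - τ) e ((m, z))`.
For `l ∈ L`: `c l = e ((l,l) τ/2) c 0`; for `l ∈ M \ L`: `l + r ∈ L` and `c l = e ((l,l) τ/2) e (-τ) c (-r)`.  Of `m`, `m - r`
exactly one lies in `L`, so `c m + c (m - r) e ((m, r) τ - τ) = e ((m,m) τ/2) (c 0 + e (-τ) c (-r))`. -/
def S_TRACE : Prop :=
  ∀ (n : ℕ) (L M : AddSubgroup (Fin n → ℝ)) (r : Fin n → ℝ), Setup L M r →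
    ∀ (τ : ℍ) (ψ : (Fin n → ℂ) → ℂ) (c : (Fin n → ℝ) → ℂ),
      (∀ l, l ∉ dual L → c l = 0) →
      (∀ z, HasSum (fun l => c l * e (pr l z)) (ψ z)) →
      (∀ x ∈ L, ∀ l, c (l + x) = e ((((ip x x : ℝ) : ℂ) / 2 + (ip l x : ℝ)) * τ) * c l) →
      ∀ z, TT r ψ τ z = 2 * (c 0 + e (-τ) * c (-r)) * th M τ z

/-- `MODT` (120 lines). Invariance of the trace under `T` and `S`.  `tr φ (τ+1) x y = tr φ τ x (x + y)` for
`(x, x) ∈ 2 ℤ`; `tr φ (-1/τ) x y (z/τ) = τ^k e ((z,z)/(2τ)) e (-(x,y)) tr φ τ y (-x) z`; and `tr φ τ x y` depends only on `x`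
and `y` modulo `L` (here for `y`: `φ τ (z + y) = φ τ z` for `y ∈ L`; `r + r ∈ L`, `-r = r - (r + r)`). -/
def S_MODT : Prop :=
  ∀ (n : ℕ) (L M : AddSubgroup (Fin n → ℝ)) (r : Fin n → ℝ), Setup L M r →
    ∀ (k : ℤ) (φ : ℍ → (Fin n → ℂ) → ℂ), IsWeakJacobi L k φ → ∀ (τ : ℍ) (z : Fin n → ℂ),
      TT r (φ (T • τ)) ((T • τ : ℍ) : ℂ) z = TT r (φ τ) τ z ∧
      TT r (φ (S • τ)) ((S • τ : ℍ) : ℂ) (fun i => z i / τ) =
        (τ : ℂ) ^ k * e (qd z / (2 * τ)) * TT r (φ τ) τ z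

/-- `FZERO` (120 lines). `Δ F` (`Δ = ModularForm.discriminant`) is a modular form of level one and weight
`w + 12 < 0`: it is holomorphic (power series in `q` on `|q| < 1`), invariant under `S` and `T`
(`slash_action_generators_SL2Z`, `ModularForm.discriminant_S_invariant`, `discriminant_T_invariant`) and bounded at `i ∞`
(`Δ = O (exp (-2 π Im τ))`, `CuspFormClass.exp_decay_atImInfty` or `discriminant_eq_q_prod`; a power series in `q` that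
converges for all `|q| < 1` is bounded for `|q| ≤ 1/2`); so it is `0` by `levelOne_neg_weight_eq_zero`, and `Δ ≠ 0`
(`ModularForm.discriminant_ne_zero`). -/
def S_FZERO : Prop :=
  ∀ (w : ℤ) (F : ℍ → ℂ) (a b : ℕ → ℂ) (A B : ℍ → ℂ), w + 12 < 0 →
    (∀ τ : ℍ, HasSum (fun m : ℕ => a m * e (m * τ)) (A τ)) →
    (∀ τ : ℍ, HasSum (fun m : ℕ => b m * e (m * τ)) (B τ)) →
    (∀ τ : ℍ, F τ = A τ + e (-τ) * B τ) →
    (∀ τ : ℍ, F (T • τ) = F τ) → (∀ τ : ℍ, F (S • τ) = (τ : ℂ) ^ w * F τ) → ∀ τ, F τ = 0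

/-- `GEN` (80 lines). The transformation laws for `T` and `S` imply those for all of `SL(2, ℤ)`: the set of `γ` that satisfy the
law is a subgroup (cocycle identities for `c τ + d` and `c / (c τ + d)`), and `S`, `T` generate
(`Matrix.SpecialLinearGroup.SL2Z_generators` or `Subgroup.closure_induction`).  Note `e (w / 2) = exp (π i w)`. -/
def S_GEN : Prop :=
  ∀ (n : ℕ) (k : ℤ) (φ : ℍ → (Fin n → ℂ) → ℂ),
    (∀ (τ : ℍ) z, φ (T • τ) z = φ τ z) →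
    (∀ (τ : ℍ) (z : Fin n → ℂ), φ (S • τ) (fun i => z i / τ) = (τ : ℂ) ^ k * e (qd z / (2 * τ)) * φ τ z) →
    ∀ (γ : SL(2, ℤ)) (τ : ℍ) (z : Fin n → ℂ),
      φ (γ • τ) (fun i => z i / ((γ 1 0 : ℂ) * τ + (γ 1 1 : ℂ))) =
        ((γ 1 0 : ℂ) * τ + (γ 1 1 : ℂ)) ^ k *
          cexp (Real.pi * I * (γ 1 0 : ℂ) * qd z / ((γ 1 0 : ℂ) * τ + (γ 1 1 : ℂ))) * φ τ z

/-- `PROD` (60 lines). Products of absolutely convergent series: induction on `n` (`Fin.consEquiv` or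
`Fin.insertNthEquiv`, `Summable.mul_of_nonneg`, `tsum_mul_tsum_of_summable_norm`). -/
def S_PROD : Prop :=
  ∀ (n : ℕ) (g : Fin n → ℤ → ℂ), (∀ i, Summable fun m => ‖g i m‖) →
    (Summable fun v : Fin n → ℤ => ‖∏ i, g i (v i)‖) ∧
    ∑' v : Fin n → ℤ, ∏ i, g i (v i) = ∏ i, ∑' m, g i m

/-- `VT` (50 lines). The one variable theta functions in terms of `jacobiTheta₂`, and absolute summability
(`hasSum_jacobiTheta₂_term`). -/
def S_VT : Prop :=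
  ∀ (a b : ℕ) (τ z : ℂ), 0 < τ.im →
    (Summable fun m : ℤ => ‖e (((m : ℂ) + a / 2) ^ 2 * τ / 2 + ((m : ℂ) + a / 2) * (z + b / 2))‖) ∧
    vt a b τ z = e ((a : ℂ) ^ 2 * τ / 8 + a / 2 * (z + b / 2)) * jacobiTheta₂ (z + b / 2 + a * τ / 2) τ

/-- `TSUM` (70 lines, uses PROD, VT). Absolute summability of the theta series of `D_n^+`: it is contained in
`(1/2 ℤ)^n`, the image of `w ↦ w / 2`, `w : Fin n → ℤ`, and `∑_w ∏_i ‖e ((w_i/2)² τ/2 + w_i/2 z_i)‖` converges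
(the one variable sum is a theta series with `τ/4`, `z/2`). -/
def S_TSUM : Prop :=
  ∀ (n : ℕ) (τ : ℂ) (z : Fin n → ℂ), 0 < τ.im → Summable (tt (Mlat n) τ z)

/-- `TPROD` (100 lines, uses PROD, VT). For even `n`: `θ_M` is half of the sum of the four products: the sum over
`v ∈ (ℤ + a/2)^n` with the factor `(1 + e (∑ v_i / 2)) / 2`, which is `1` if `∑ v_i` is even and `0` if it is odd. -/
def S_TPROD : Prop :=
  ∀ (n : ℕ), 0 < n → Even n → ∀ (τ : ℍ) (z : Fin n → ℂ),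
    th (Mlat n) τ z = 1 / 2 * (∏ i, vt 0 0 τ (z i) + ∏ i, vt 0 1 τ (z i) +
      ∏ i, vt 1 0 τ (z i) + ∏ i, vt 1 1 τ (z i))

/-- `VTS` (70 lines, uses VT). `jacobiTheta₂_functional_equation`.  The fourth root of unity is `1` unless `a = b = 1`. -/
def S_VTS : Prop :=
  ∀ (a b : ℕ), a ≤ 1 → b ≤ 1 → ∃ ζ : ℂ, ζ ^ 4 = 1 ∧ ∀ (τ : ℍ) (z : ℂ),
    vt a b (-1 / τ) (z / τ) = ζ * (-I * τ) ^ (1 / 2 : ℂ) * e (z ^ 2 / (2 * τ)) * vt b a τ z

/-- `THS` (50 lines, uses TPROD, VTS). The transformation law of `θ_M` under `S`, `n = 8 j`: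
`((-i τ)^(1/2))^(8 j) = τ^(4 j)`. -/
def S_THS : Prop :=
  ∀ (j : ℕ), 1 ≤ j → ∀ (τ : ℍ) (z : Fin (8 * j) → ℂ),
    th (Mlat (8 * j)) (S • τ) (fun i => z i / τ) =
      (τ : ℂ) ^ ((4 * j : ℕ) : ℤ) * e (qd z / (2 * τ)) * th (Mlat (8 * j)) τ z

/-- `THH` (60 lines, uses TPROD, VT). `θ_M` is holomorphic (`hasFDerivAt_jacobiTheta₂`). -/
def S_THH : Prop :=
  ∀ (n : ℕ), 0 < n → Even n →
    DifferentiableOn ℂ (fun p : ℂ × (Fin n → ℂ) => th (Mlat n) (ofComplex p.1) p.2) {p | 0 < p.1.im}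

/-- `THP` (80 lines). For every even `M`: `θ_M (τ + 1) = θ_M τ`, the quasi-periodicity of `θ_M` under all of `M`
(reindex by `v ↦ v + x`; `(v, y) ∈ ℤ` by polarisation), and the Fourier expansion (`f m l = 1` if `l ∈ M` and `(l,l) = 2 m`). -/
def S_THP : Prop :=
  ∀ (n : ℕ) (M : AddSubgroup (Fin n → ℝ)), (∀ x ∈ M, ∃ m : ℤ, ip x x = 2 * m) →
    (∀ (τ : ℍ) z, th M (T • τ) z = th M τ z) ∧
    (∀ x ∈ M, ∀ y ∈ M, ∀ (τ : ℍ) z, th M τ (sh τ z x y) = e (-((ip x x : ℝ) * τ / 2) - pr x z) * th M τ z) ∧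
    ((∀ (τ : ℍ) z, Summable (tt M τ z)) → ∃ f : ℕ → (Fin n → ℝ) → ℂ, (∀ m, ∀ l ∉ M, f m l = 0) ∧
      ∀ (τ : ℍ) (z : Fin n → ℂ),
        HasSum (fun p : ℕ × (Fin n → ℝ) => f p.1 p.2 * cexp (2 * Real.pi * I * (p.1 * τ + pr p.2 z)))
          (th M τ z))

/-- `NZ` (40 lines, uses UNIQ). `θ_M (τ, ·)` is not identically zero. -/
def S_NZ : Prop :=
  ∀ (n : ℕ) (M : AddSubgroup (Fin n → ℝ)) (τ : ℍ), (∀ z, Summable (tt M τ z)) → ∃ z, th M τ z ≠ 0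

/-- `SETUP` (120 lines). The lattices: `n = 8 j`, `j ≥ 1`.  `D_n^+` is even: for `v_i = a_i + 1/2`,
`∑ v_i² = ∑ (a_i² + a_i) + n / 4`; for integral `v`, `∑ v_i² ≡ ∑ v_i`.  Self-dual: use the vectors `e_i ± e_j` and
`(1/2, …, 1/2)` (its sum is `4 j`), and `2 e_i`.  `t4 v ∈ ℤ` for `v ∈ M`, `t4 r = 1`. -/
def S_SETUP : Prop := ∀ j : ℕ, 1 ≤ j → Setup (Llat (8 * j)) (Mlat (8 * j)) (rr (8 * j))

/-- `IRR` (150 lines). If `L = A ⊥ B` every root (vector of norm 2) lies in `A` or in `B` (all norms are even), and two roots with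
nonzero product lie in the same one.  So the roots `±e_i ± e_k`, `i, k < 4`, lie all in one of them, and those with
`4 ≤ i, k` too.  If all are in `A` then `B = 0`.  Otherwise `(1/2, …, 1/2) = a + b` with `a` supported on the coordinates `< 4`
and `b` on the others, so `a = (1/2, 1/2, 1/2, 1/2, 0, …)` (or the other way round), which is not in `M`. -/
def S_IRR : Prop := ∀ j : ℕ, 1 ≤ j → IsIrreducible (Llat (8 * j))

/-- `SPAN` (40 lines). `4 e_i ∈ L`. -/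
def S_SPAN : Prop := ∀ n : ℕ, Submodule.span ℝ (Llat n : Set (Fin n → ℝ)) = ⊤

/-- `VAN` (80 lines, uses COEF, QP, TRACE, MODT, FZERO). The trace of a form of small weight vanishes: `TT = 2 F θ_M` with
`F τ = c 0 τ + e (-τ) c (-r) τ`; the modularity of `F` from MODT, the laws for `θ_M` and `θ_M (τ, z) ≠ 0`. -/
def S_VAN : Prop :=
  ∀ (n : ℕ) (L M : AddSubgroup (Fin n → ℝ)) (r : Fin n → ℝ) (w k : ℤ) (φ : ℍ → (Fin n → ℂ) → ℂ),
    Setup L M r →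
    (∀ (τ : ℍ) z, th M (T • τ) z = th M τ z) →
    (∀ (τ : ℍ) (z : Fin n → ℂ), th M (S • τ) (fun i => z i / τ) = (τ : ℂ) ^ w * e (qd z / (2 * τ)) * th M τ z) →
    (∀ τ : ℍ, ∃ z, th M τ z ≠ 0) →
    IsWeakJacobi L k φ → k - w + 12 < 0 → ∀ (τ : ℍ) z, TT r (φ τ) τ z = 0

/-- `MAIN` (80 lines, uses VAN, SETUP, IRR, SPAN, THS, THH, THP, TSUM, GEN, NZ). -/
def S_MAIN : Prop :=
  ∀ N : ℤ, ∃ (n : ℕ) (L : AddSubgroup (Fin n → ℝ)), IsEvenLattice L ∧ IsIrreducible L ∧ ¬ IsUnimodular L ∧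
    ∀ (ι : Type) (k : ι → ℤ) (φ : ι → ℍ → (Fin n → ℂ) → ℂ),
      (∀ i, IsWeakJacobi L (k i) (φ i)) → Generates L k φ → ∃ i, N ≤ k i

end

end Pool.Agent.Run7.h92.JG
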