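import Pool.Agent.Run7.h92.JG.Stm

namespace Pool.Agent.Run7.h92.JG

open Complex MatrixGroups ModularGroup
open UpperHalfPlane hiding I

theorem e_zero : e 0 = 1 := by simp [e]

theorem e_add (a b : ℂ) : e (a + b) = e a * e b := by
  unfold e
  rw [← Complex.exp_add]
  congr 1
  ring

theorem e_ne_zero (a : ℂ) : e a ≠ 0 := Complex.exp_ne_zero _

theorem coe_ne (τ : ℍ) : (τ : ℂ) ≠ 0 := UpperHalfPlane.ne_zero τ

theorem t_VAN (hCOEF : S_COEF) (hQP : S_QP) (hTRACE : S_TRACE) (hMODT : S_MODT) (hFZERO : S_FZERO) :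
    S_VAN := by
  intro n L M r w k φ hset hT hS hnz hφ hk
  obtain ⟨c, a, hc1, hc2, hc3⟩ := hCOEF n L k φ hφ
  have hqp : ∀ (τ : ℍ), ∀ x ∈ L, ∀ l, c (l + x) τ =
      e ((((ip x x : ℝ) : ℂ) / 2 + (ip l x : ℝ)) * τ) * c l τ := by
    intro τ x hx
    refine hQP n (fun l => c l τ) (φ τ) τ x (hc2 τ) fun z => ?_
    rw [hφ.periodic x hx 0 L.zero_mem τ z]
    unfold e
    congr 2
    ring
  set F : ℍ → ℂ := fun τ => c 0 τ + e (-τ) * c (-r) τ with hF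
  have htr : ∀ (τ : ℍ) z, TT r (φ τ) τ z = 2 * F τ * th M τ z := fun τ z =>
    hTRACE n L M r hset τ (φ τ) (fun l => c l τ) (fun l hl => hc1 l hl τ) (hc2 τ) (hqp τ) z
  have hFT : ∀ τ : ℍ, F (T • τ) = F τ := by
    intro τ
    obtain ⟨z, hz⟩ := hnz τ
    have h1 := (hMODT n L M r hset k φ hφ τ z).1
    rw [htr, htr, hT] at h1
    have h2 := mul_right_cancel₀ hz h1
    exact mul_left_cancel₀ two_ne_zero h2
  have hFS : ∀ τ : ℍ, F (S • τ) = (τ : ℂ) ^ (k - w) * F τ := by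
    intro τ
    obtain ⟨z, hz⟩ := hnz τ
    have h1 := (hMODT n L M r hset k φ hφ τ z).2
    rw [htr, htr, hS] at h1
    have hτ := coe_ne τ
    have he := e_ne_zero (qd z / (2 * τ))
    rw [zpow_sub₀ hτ]
    have hw : (τ : ℂ) ^ w ≠ 0 := zpow_ne_zero _ hτ
    rw [div_mul_eq_mul_div, eq_div_iff hw]
    have h3 : (2 * e (qd z / (2 * τ)) * th M τ z) ≠ 0 := mul_ne_zero (mul_ne_zero two_ne_zero he) hz
    apply mul_right_cancel₀ h3
    linear_combination h1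
  have hF0 : ∀ τ, F τ = 0 :=
    hFZERO (k - w) F (a 0) (a (-r)) (c 0) (c (-r)) hk (hc3 0) (hc3 (-r)) (fun τ => rfl) hFT hFS
  intro τ z
  rw [htr, hF0]
  ring

end Pool.Agent.Run7.h92.JG
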